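import Mathlib
import Pool.Agent.V8H43.OVT.Bound

/-!
# Orthogonal Vectors: circuits over formulas of bilinear maps of real vectors

The input consists of `n` distinct vectors `u_1, …, u_n` and `n` distinct vectors `v_1, …, v_n` of
`{0, 1} ^ d` (`Valid`), with `4 (log₂ n + 1) ≤ d ≤ n`; are some `u_i` and some `v_j` orthogonal
(`ov`)? The items of the input are each of the vectors `u_i`, and the list of all vectors `v_j`.

*Formulas* (`Fml`). The wires carry vectors of dimension `D` with real coordinates (of unlimited
precision). The leaves are vectors, or matrices which are applied to a vector (`act`), which depend in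
an arbitrary way on one item (so on all `d` coordinates of one `u_i`, or on all vectors `v_j`), or on
`w` words of length `c log₂ (2 n)`, each of which is an arbitrary function of one item. The gates are
sums, arbitrary bilinear maps of two vectors (`bil`), tests of the sign of a linear form with two
arbitrary vectors as results (`test`), and gates `sym` of any fan-in whose value is an arbitrary
function of the number of the inputs for which a linear form is positive. So weighted (also quantum)
automata with `D` states and unbounded error, and the contractions of tensor networks whose
intermediate tensors have at most `D` entries, are formulas of this kind; the case `D = 1` contains all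
real formulas.

*Circuits* (`Circuit`) compute shared bits; each bit is the result of a branching program whose tests
are formulas, and the leaves may also read the bits computed before. A leaf which reads an item pays
its price: one for each vector `u_i`, nothing for the list of the vectors `v_j`, and for a shared bit
the number of the vectors `u_i` on which the bit depends. The cost is the sum of the prices of all
leaves, plus the number of inner nodes of the branching programs, plus the number of wires which lead to
gates `sym`. All other gates and constants are free.

We show that random circuits with error probability at most `1 / 3` have cost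
`s ≥ n ^ 2 d / (3000 (w c + D ^ 2) log₂ n)`. For `D = O (1)` and `w, c = O (1)` this is the cost
`n ^ 2 d / log n` of the comparison of all pairs, up to a constant. So an algorithm of this kind with
`n ^ (2 - ε)` steps computes with vectors of dimension `n ^ (ε / 2)` up to logarithms, or with shared
bits which depend on many of the vectors `u_i`.

Proof. The first `2 l` coordinates, `2 ^ l ≥ n`, are an address: `u_i` has `(x, 1 - x)` there and `v_j`
has `(1 - j, j)`, and these are orthogonal only if `x = j`. The other `d - 2 l ≥ d / 2` coordinates of
`v_j` are free, and `u_i` can ask for each of these `n (d - 2 l)` bits. The method of Nechiporuk in the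
form of `Pool.Agent.N452.TF` counts the functions of `u_i` which arise when the other items are fixed.
-/

set_option autoImplicit false

namespace Pool.Agent.Results.MP_0f984e_lc.BilinearFormulas

open Pool.Agent.TH697.Form (IsProb)
open Pool.Agent.TH697.Row (ApproximatesOn)
open Pool.Agent.N452.TF (Circuit)
open Pool.Agent.N452.TF.Xor (pairs)
open Pool.Agent.V8H43.OVT (Item Valid ov)

theorem result : ∀ n d c w D : ℕ, 1000 ≤ n → 4 * (Nat.log 2 n + 1) ≤ d → d ≤ n →
    1 ≤ c → 1 ≤ w → 1 ≤ D →
    ∀ (Ω : Type) [Fintype Ω] (μ : Ω → ℝ), IsProb μ →
      ∀ (s : ℕ) (C : Ω → Circuit (Option (Fin n)) (Item n d) w ((2 * n) ^ c) D),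
        (∀ ω, (C ω).circ.cost (pairs n) ≤ s) →
        ApproximatesOn μ (fun ω => (C ω).eval) (Valid n d) (ov n d) →
        (n : ℝ) ^ 2 * d ≤ 3000 * (w * c + (D : ℝ) ^ 2) * Nat.log 2 n * s :=
  fun _ _ _ _ _ hn hd hdn hc hw hD _ _ μ hμ s C hs hC =>
    Pool.Agent.V8H43.OVT.bound hn hd hdn hc hw hD μ hμ s C hs hC

end Pool.Agent.Results.MP_0f984e_lc.BilinearFormulas
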