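import Pool.Agent.V8H11.OVC.Num

set_option autoImplicit false

/-!
# Orthogonal Vectors needs `n ^ (2 - ε)` gates in circuits with few negations

A restricted-model version of the Orthogonal Vectors hypothesis. The circuits (`Circuit`, in
`Pool/Agent/V8H11/OVC/Defs.lean`) have gates of the following kinds: an arbitrary antitone function
of one single vector of the instance, the disjunction of an arbitrary set of earlier gates, the
conjunction of two earlier gates, and the negation of an earlier gate; only the conjunctions and the
negations are counted. Boolean circuits of `∧`, `∨` over the negated input bits are the special case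
without negations.

For dimension `d ≥ 4 (2 m) ^ (2 ^ (t + 1)) ln n`, randomized circuits with at most `t` negations
which decide Orthogonal Vectors, on `n + n` vectors which are distinct in each of the two sequences,
need at least `n ^ (2 - 5 / m)` conjunctions. For `t = 0` (error `1 / 3`, `d ≥ 16 m² ln n`) this says
that negation-free circuits need `n ^ (2 - O(1 / √c))` gates in dimension `c ln n`; and `t` may be
as large as `log₂ log n - O(1)` if the dimension is a power of `n`.

Proof. The functions computed by the gates are approximated, on planted pairs (a random pair of
rows is filled with complementary random vectors, all other vectors are all-ones in the encoding of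
Orthogonal Vectors) and on dense random noise, by a union of functions of single rows and a set of
pairs of rows. A function of a single row which accepts a planted row with probability `n ^ (-K)`
accepts a noise row with probability `n ^ (-K / m)`; so a gate which rejects some noise has at most
`n ^ (K / m) (log n) ^ O(1)` rows which matter, and every conjunction creates at most
`n ^ (2 K / m) (log n) ^ O(1)` new pairs. The negations are treated by a chain of `2 ^ t` densities of
the noise: outside a small exceptional set the values of all the relevant negation-free functions
increase along the chain, while the answer changes `2 ^ t` times from true to false.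
-/

namespace Pool.Agent.Results.MP_0f984e_lc.FewNegations

open Pool.Agent.V8H11.OVC

open scoped Classical in
/-- **The Orthogonal Vectors hypothesis for randomized circuits with few negations.** For every
`m ≥ 3` there is `n₀` such that for all `n ≥ n₀`, all `t` with `16 ^ (t m) ≤ n` and all dimensions
`d ≥ 4 (2 m) ^ (2 ^ (t + 1)) ln n`: every finite probability distribution on circuits with at most
`t` negations and at most `s` conjunctions which answers every instance of `n + n` vectors, the
vectors of each sequence being distinct, correctly with probability at least `1 - 1 / (3 · 2 ^ t)`
has `s ≥ n ^ (2 - 5 / m)`. -/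
theorem result (m : ℕ) (hm : 3 ≤ m) : ∃ n₀ : ℕ, ∀ n t d : ℕ, n₀ ≤ n → 16 ^ (t * m) ≤ n →
    4 * (2 * m : ℝ) ^ 2 ^ (t + 1) * Real.log n ≤ d →
    ∀ (Ω : Type) [Fintype Ω] (w : Ω → ℝ), (∀ ω, 0 ≤ w ω) → ∑ ω, w ω = 1 →
    ∀ (L : Ω → ℕ) (c : ∀ ω, Circuit n d (L ω + 1)) (s : ℕ),
    (∀ ω, (c ω).numNot ≤ t) → (∀ ω, (c ω).numAnd ≤ s) →
    (∀ x : Inst n d, Valid x → 1 - 1 / (3 * 2 ^ t) ≤ ∑ ω with ((c ω).out x ↔ OV x), w ω) →
    (n : ℝ) ^ (2 - 5 / m : ℝ) ≤ s :=
  main m hm

end Pool.Agent.Results.MP_0f984e_lc.FewNegations
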