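import Mathlib
import Pool.Agent.V8H43.OV.Asy

/-!
# Orthogonal Vectors: programs with monotone operations and few tests

An instance `x : Inst n d` consists of the vectors `x (false, i)` of the first set and the vectors
`x (true, j)` of the second set, `i, j < n`; `Valid x` says that the vectors of each set are
distinct, `Orth x` is the question of the problem.

*Programs* (`Dec (Items n d) s m l F`: the predicate `F` is decided by such a program). The values
which are available at the beginning are the constants and all nonincreasing real functions of one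
vector (with respect to the order `0 < 1` of the bits). A program may

* compute `φ (a, b)` from two available values, where `φ : ℝ → ℝ → ℝ` is an arbitrary function which
  is nondecreasing in both arguments (a step),
* compute the maximum of any number of available values (a maximum),
* test if an available value is positive (a step), and continue in an arbitrary way, which depends on
  the outcome.

The program has at most `s` steps and `m` maxima on every path of the tree of its tests, and this
tree has at most `l` leaves. So the answers are arbitrary, not necessarily monotone, functions of the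
outcomes of the tests. Orthogonal Vectors is monotone in the complements of the bits; it is decided by
such a program with `(2 d - 1) n ^ 2` minima and maxima of two values, one maximum and one test.

**Theorem.** Let `ε > 0`, `g ≥ 0`, `2 g + ε ≤ 1` and `T ≥ 0`. There are `C` and `a > 0` such that for
all large `n` and all dimensions `d ≥ C log n` there are two distributions, on the yes-instances and on
the no-instances, such that every program with `n ^ (2 - 3 g - ε)` steps, `n ^ T` maxima and `n ^ g`
leaves accepts a random yes-instance with probability at most the probability for a random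
no-instance plus `n ^ (- a)`. Hence every random program of this kind has error probability at least
`(1 - n ^ (- a)) / 2` on some instance.

**Proof** (`Pool/Agent/V8H43/OV`). A random no-instance has independent bits, a random yes-instance
has only two vectors which are not the all-ones vector, and the two are complementary to each other.
At all thresholds together a value computed by few monotone operations is approximated by the maximum
of a constant and of functions of single vectors, where only `K = n ^ o(1)` vectors matter: if a
function of one vector exceeds a threshold with probability at most `λ` on a no-instance then it does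
so with probability at most `λ ^ t` on a yes-instance, because the items of a yes-instance are dominated
by the intersection of `t` items of a no-instance; and if many vectors matter then the maximum is large
on no-instances with overwhelming probability. A binary operation causes an error only for `K ^ 2` of
the `n ^ 2` pairs of vectors. For the tests the vectors are divided into blocks, and a chain of
instances is used in which yes and no alternate.
-/

set_option autoImplicit false

open Finset

namespace Pool.Agent.Results.MP_0f984e_lc.MonotonePrograms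

open Pool.Agent.V8H43.OV

open scoped Classical in
theorem result (ε g T : ℝ) (hε : 0 < ε) (hg : 0 ≤ g) (hgε : 2 * g + ε ≤ 1) (hT : 0 ≤ T) :
    ∃ C a : ℝ, 0 < a ∧ ∃ n₀ : ℕ, ∀ n : ℕ, n₀ ≤ n → ∀ d : ℕ, C * Real.log n ≤ d →
      (∃ (Λ : Type) (_ : Fintype Λ) (_ : Nonempty Λ) (yes no : Λ → Inst n d),
        (∀ b, Valid (yes b) ∧ Orth (yes b)) ∧ (∀ b, Valid (no b) ∧ ¬ Orth (no b)) ∧
        ∀ (s m l : ℕ) (F : Inst n d → Bool), (s : ℝ) ≤ (n:ℝ) ^ (2 - 3 * g - ε) →
          (m : ℝ) ≤ (n:ℝ) ^ T → (l : ℝ) ≤ (n:ℝ) ^ g → Dec (Items n d) s m l F →
          acc yes F ≤ acc no F + (n:ℝ) ^ (-a)) ∧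
      ∀ (Ω : Type) [Fintype Ω] (μ : Ω → ℝ), (∀ ω, 0 ≤ μ ω) → ∑ ω, μ ω = 1 →
        ∀ (s m l : Ω → ℕ) (F : Ω → Inst n d → Bool),
          (∀ ω, (s ω : ℝ) ≤ (n:ℝ) ^ (2 - 3 * g - ε) ∧ (m ω : ℝ) ≤ (n:ℝ) ^ T ∧
            (l ω : ℝ) ≤ (n:ℝ) ^ g ∧ Dec (Items n d) (s ω) (m ω) (l ω) (F ω)) →
          ∃ x : Inst n d, Valid x ∧
            (1 - (n:ℝ) ^ (-a)) / 2 ≤ ∑ ω, μ ω * if (F ω x = true ↔ Orth x) then 0 else 1 := by
  obtain ⟨C, a, ha, n₀, hmain⟩ := hard_asy ε g T hε hg hgε hT
  refine ⟨C, a, ha, n₀, fun n hn d hd => ⟨hmain n hn d hd, ?_⟩⟩
  intro Ω _ μ hμ0 hμ1 s m l F hF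
  obtain ⟨Λ, hΛ, hΛne, yes, no, hyes, hno, hadv⟩ := hmain n hn d hd
  by_contra hcon
  push Not at hcon
  set h : ℝ := (1 - (n:ℝ) ^ (-a)) / 2 with hh
  have hc : (0:ℝ) < Fintype.card Λ := by exact_mod_cast Fintype.card_pos
  -- errors of one program
  have e1 : ∀ ω, (Fintype.card Λ : ℝ) * (2 * h) ≤
      ∑ b : Λ, ((if (F ω (yes b) = true ↔ Orth (yes b)) then (0:ℝ) else 1) +
        if (F ω (no b) = true ↔ Orth (no b)) then (0:ℝ) else 1) := by
    intro ω
    obtain ⟨h1, h2, h3, h4⟩ := hF ω
    have h5 := hadv (s ω) (m ω) (l ω) (F ω) h1 h2 h3 h4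
    have h6 : ∑ b : Λ, (if (F ω (yes b) = true ↔ Orth (yes b)) then (0:ℝ) else 1) =
        Fintype.card Λ * (1 - acc yes (F ω)) := by
      have h7 : (Fintype.card Λ : ℝ) * (1 - acc yes (F ω)) =
          Fintype.card Λ - cnt (fun b => F ω (yes b) = true) := by
        unfold acc
        field_simp
      rw [h7, ← cnt_not, cnt_eq, Finset.card_filter]
      push_cast
      refine Finset.sum_congr rfl fun b _ => ?_
      have := (hyes b).2
      by_cases hb : F ω (yes b) = true <;> simp [hb, this]
    have h8 : ∑ b : Λ, (if (F ω (no b) = true ↔ Orth (no b)) then (0:ℝ) else 1) =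
        Fintype.card Λ * acc no (F ω) := by
      have h7 : (Fintype.card Λ : ℝ) * acc no (F ω) = cnt (fun b => F ω (no b) = true) := by
        unfold acc
        field_simp
      rw [h7, cnt_eq, Finset.card_filter]
      push_cast
      refine Finset.sum_congr rfl fun b _ => ?_
      have := (hno b).2
      by_cases hb : F ω (no b) = true <;> simp [hb, this]
    rw [Finset.sum_add_distrib, h6, h8, ← mul_add]
    refine mul_le_mul_of_nonneg_left ?_ hc.le
    rw [hh]
    linarith
  have e2 : (Fintype.card Λ : ℝ) * (2 * h) ≤ ∑ ω, μ ω *
      ∑ b : Λ, ((if (F ω (yes b) = true ↔ Orth (yes b)) then (0:ℝ) else 1) +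
        if (F ω (no b) = true ↔ Orth (no b)) then (0:ℝ) else 1) := by
    have := Finset.sum_le_sum (s := univ) fun ω _ => mul_le_mul_of_nonneg_left (e1 ω) (hμ0 ω)
    rwa [← Finset.sum_mul, hμ1, one_mul] at this
  have e3 : ∑ ω, μ ω *
      ∑ b : Λ, ((if (F ω (yes b) = true ↔ Orth (yes b)) then (0:ℝ) else 1) +
        if (F ω (no b) = true ↔ Orth (no b)) then (0:ℝ) else 1) =
      ∑ b : Λ, ((∑ ω, μ ω * (if (F ω (yes b) = true ↔ Orth (yes b)) then (0:ℝ) else 1)) +
        ∑ ω, μ ω * if (F ω (no b) = true ↔ Orth (no b)) then (0:ℝ) else 1) := by
    simp only [Finset.mul_sum]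
    rw [Finset.sum_comm]
    refine Finset.sum_congr rfl fun b _ => ?_
    rw [← Finset.sum_add_distrib]
    refine Finset.sum_congr rfl fun ω _ => ?_
    rw [mul_add]
  rw [e3] at e2
  have e4 : ∑ b : Λ, ((∑ ω, μ ω * (if (F ω (yes b) = true ↔ Orth (yes b)) then (0:ℝ) else 1)) +
        ∑ ω, μ ω * if (F ω (no b) = true ↔ Orth (no b)) then (0:ℝ) else 1) <
      ∑ _b : Λ, (2 * h) := by
    refine Finset.sum_lt_sum_of_nonempty univ_nonempty fun b _ => ?_
    have h1 := hcon (yes b) (hyes b).1
    have h2 := hcon (no b) (hno b).1
    linarith
  rw [Finset.sum_const, Finset.card_univ, nsmul_eq_mul] at e4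
  linarith

end Pool.Agent.Results.MP_0f984e_lc.MonotonePrograms
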