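import Mathlib
import Pool.Agent.V8H16.OW.Param

/-!
# Orthogonal Vectors: randomized circuits of small depth

An input `x : Bool × Fin n → Fin d → Bool` consists of the vectors `x (false, i)` and `x (true, j)` of
`{0, 1} ^ d` for `i, j < n`. It is valid if the vectors of each list are distinct (`Valid`); the answer
is yes if a vector of the first list and a vector of the second list have no common one (`Orth`).

The circuits (`VecCircuit`) have AND and OR gates of unbounded fan-in and NOT gates, and their input
bits are ARBITRARY functions of single vectors: for each `r` and each `f : {0, 1} ^ d → {0, 1}` the bit
`f (x r)` is available. The `cost` is the number of gates plus the number of wires between gates; the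
wires from input bits are not counted. Depth three and cost `O(n ^ 2 d)` suffice. We show that for
`d ≥ C log n` and each depth `k` with `k log log n ≤ a log n`, in particular for each constant depth,
each probability distribution on circuits of depth at most `k` and cost at most `n ^ (2 - ε)` has error
probability at least `(1 - n ^ (-a)) / 2` for some valid input, where `C` and `a > 0` depend only
on `ε`.

Proof. Each bit of a random instance is the conjunction of `M` random bits. An orthogonal pair is
planted in the rows `i` and `j`: in each coordinate one of the `M` bits of the second vector is the
complement of the same bit of the first vector. By a hypercontractive inequality the planted pair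
belongs to a product set `A × B` with probability at most `(P(A) P(B)) ^ (1 - 1 / q)`. A function of
the two exchanged rows has no joint dependence if it depends on at most one of them (compared with the
old rows). If a gate has a joint dependence then this holds for the part of the gate which consists of
input bits, or an initial part of some gate and the next gate which it reads depend on different rows.
Both events are product sets, and their probabilities for independent rows are bounded by the second
moment of the sensitivity of the initial parts, which is small by the switching lemma.
-/

set_option autoImplicit false

namespace Pool.Agent.Results.MP_0f984e_lc.SmallDepthCircuits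

open Pool.Agent.V8H16.OW
open Pool.Agent.V8H16.OV (err)

theorem result (ε : ℝ) (hε : 0 < ε) : ∃ C a : ℝ, 0 < a ∧ ∃ n₀ : ℕ, ∀ n d k : ℕ, n₀ ≤ n →
    C * Real.log n ≤ d → k * Real.log (Real.log n) ≤ a * Real.log n →
    ∀ (Ω : Type) [Fintype Ω] (p : Ω → ℝ), (∀ ω, 0 ≤ p ω) → ∑ ω, p ω = 1 →
    ∀ D : Ω → VecCircuit n d,
      (∀ ω, (D ω).depth ≤ k ∧ (cost (D ω) : ℝ) ≤ (n : ℝ) ^ (2 - ε)) →
      ∃ x : Bool × Fin n → Fin d → Bool, Valid x ∧
        (1 - (n : ℝ) ^ (-a)) / 2 ≤ err p (fun ω => (D ω).eval (inputs x) = true) (Orth x) :=
  small_depth ε hε

end Pool.Agent.Results.MP_0f984e_lc.SmallDepthCircuits
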